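import Mathlib

set_option autoImplicit false

open LaurentPolynomial

namespace Run7.h254.HT

/-- An involution of `ℤ[T;T⁻¹]` sending `T 1` to `T (-1)` is `invert`. -/
theorem sigma_eq (σ : LaurentPolynomial ℤ →+* LaurentPolynomial ℤ) (h : σ (T 1) = T (-1))
    (p : LaurentPolynomial ℤ) : σ p = invert p := by
  have hm : σ (T (-1)) = T 1 := by
    have h1 : (T 1 : LaurentPolynomial ℤ) * T (-1) = 1 := by rw [← T_add]; simp
    have h2 := congrArg σ h1
    rw [map_mul, h, map_one] at h2
    calc σ (T (-1)) = (T 1 * T (-1)) * σ (T (-1)) := by rw [h1, one_mul]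
      _ = T 1 * (T (-1) * σ (T (-1))) := by ring
      _ = T 1 := by rw [h2, mul_one]
  have hT : ∀ n : ℤ, σ (T n) = T (-n) := by
    intro n
    obtain ⟨k, rfl | rfl⟩ := n.eq_nat_or_neg
    · have : (T (k : ℤ) : LaurentPolynomial ℤ) = T 1 ^ k := by simp
      rw [this, map_pow, h, T_pow]; simp
    · have : (T (-(k : ℤ)) : LaurentPolynomial ℤ) = T (-1) ^ k := by simp
      rw [this, map_pow, hm, T_pow]; simp
  induction p using LaurentPolynomial.induction_on' with
  | add p q hp hq => rw [map_add, map_add, hp, hq]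
  | C_mul_T n a =>
    rw [map_mul, map_mul, hT, invert_T]
    congr 1
    rw [show (C a : LaurentPolynomial ℤ) = (a : LaurentPolynomial ℤ) from by simp]
    rw [map_intCast, map_intCast]

/-- Sum of the squares of the coefficients. -/
noncomputable def csq (p : LaurentPolynomial ℤ) : ℤ := p.coeff.sum fun _ a => a ^ 2

/-- Sum of the coefficients. -/
noncomputable def csum (p : LaurentPolynomial ℤ) : ℤ := p.coeff.sum fun _ a => a

theorem coeff_invert_mul (p : LaurentPolynomial ℤ) : (invert p * p).coeff 0 = csq p := by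
  classical
  rw [mul_comm, AddMonoidAlgebra.coeff_mul]
  unfold csq
  refine Finsupp.sum_congr fun m hm => ?_
  have key : ∀ m' : ℤ, (if m + m' = 0 then p.coeff m * (invert p).coeff m' else 0)
      = if m' = -m then p.coeff m ^ 2 else 0 := by
    intro m'
    by_cases h : m' = -m
    · subst h
      simp [sq]
    · rw [if_neg (by omega), if_neg h]
  rw [Finsupp.sum]
  simp only [key]
  rw [Finset.sum_ite_eq']
  split_ifs with h
  · rfl
  · have : (invert p).coeff (-m) = 0 := by simpa using h
    rw [invert_apply, neg_neg] at this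
    rw [this]; simp

theorem csq_nonneg (p : LaurentPolynomial ℤ) : 0 ≤ csq p :=
  Finset.sum_nonneg fun _ _ => sq_nonneg _

theorem eq_zero_of_csq (p : LaurentPolynomial ℤ) (h : csq p = 0) : p = 0 := by
  unfold csq at h
  rw [Finsupp.sum, Finset.sum_eq_zero_iff_of_nonneg fun _ _ => sq_nonneg _] at h
  ext n
  by_contra hn
  exact hn (by simpa using h n (by simpa using hn))

theorem csq_parity (p : LaurentPolynomial ℤ) : (2 : ℤ) ∣ csq p - csum p := by
  unfold csq csum
  rw [Finsupp.sum, Finsupp.sum, ← Finset.sum_sub_distrib]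
  refine Finset.dvd_sum fun n _ => ?_
  have : (p.coeff n) ^ 2 - p.coeff n = (p.coeff n - 1) * (p.coeff n - 1 + 1) := by ring
  rw [this]
  exact (Int.even_mul_succ_self _).two_dvd

/-- the augmentation is the sum of the coefficients. -/
theorem eps_eq (ε : LaurentPolynomial ℤ →+* ℤ) (h : ε (T 1) = 1) (p : LaurentPolynomial ℤ) :
    ε p = csum p := by
  have hm : ε (T (-1)) = 1 := by
    have h1 : (T 1 : LaurentPolynomial ℤ) * T (-1) = 1 := by rw [← T_add]; simp
    have h2 := congrArg ε h1
    rwa [map_mul, h, map_one, one_mul] at h2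
  have hT : ∀ n : ℤ, ε (T n) = 1 := by
    intro n
    obtain ⟨k, rfl | rfl⟩ := n.eq_nat_or_neg
    · have : (T (k : ℤ) : LaurentPolynomial ℤ) = T 1 ^ k := by simp
      rw [this, map_pow, h, one_pow]
    · have : (T (-(k : ℤ)) : LaurentPolynomial ℤ) = T (-1) ^ k := by simp
      rw [this, map_pow, hm, one_pow]
  unfold csum
  induction p using LaurentPolynomial.induction_on' with
  | add p q hp hq =>
    rw [map_add, hp, hq, AddMonoidAlgebra.coeff_add, Finsupp.sum_add_index'] <;> simp
  | C_mul_T n a =>
    have h1 : ε (C a * T n) = a := by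
      rw [map_mul, hT, mul_one, show (C a : LaurentPolynomial ℤ) = (a : LaurentPolynomial ℤ) from
        by simp, map_intCast]
      simp
    rw [h1, ← single_eq_C_mul_T, AddMonoidAlgebra.coeff_single, Finsupp.sum_single_index rfl]

/-- If `(T 1 - 1) * q` is divisible by `2` then so is `q`. -/
theorem two_dvd_of_mul (q : LaurentPolynomial ℤ) (h : (2 : LaurentPolynomial ℤ) ∣ (T 1 - 1) * q) :
    (2 : LaurentPolynomial ℤ) ∣ q := by
  have hc : ∀ n : ℤ, (2 : ℤ) ∣ q.coeff (n - 1) - q.coeff n := by
    intro n
    obtain ⟨w, hw⟩ := h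
    have h1 := congrArg (fun p : LaurentPolynomial ℤ => p.coeff n) hw
    simp only [sub_mul, one_mul, AddMonoidAlgebra.coeff_sub, Finsupp.sub_apply] at h1
    have h2 : ((T 1 : LaurentPolynomial ℤ) * q).coeff n = q.coeff (n - 1) := by
      rw [T, AddMonoidAlgebra.coeff_single_mul_apply]; simp; ring_nf
    have h3 : ((2 : LaurentPolynomial ℤ) * w).coeff n = 2 * w.coeff n := by
      rw [two_mul, two_mul]; simp
    rw [h2, h3] at h1
    exact ⟨_, h1⟩
  have hall : ∀ n : ℤ, (2 : ℤ) ∣ q.coeff n := by
    -- far to the left the coefficients vanish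
    obtain ⟨N, hN⟩ : ∃ N : ℤ, ∀ n, n ≤ N → q.coeff n = 0 := by
      obtain ⟨b, hb⟩ := q.coeff.support.bddBelow
      refine ⟨b - 1, fun n hn => ?_⟩
      by_contra h0
      have := hb (show n ∈ (q.coeff.support : Set ℤ) by simpa using h0)
      omega
    have step : ∀ k : ℕ, (2 : ℤ) ∣ q.coeff (N + k) := by
      intro k
      induction k with
      | zero => simp [hN N le_rfl]
      | succ k ih =>
        have := hc (N + (k + 1 : ℕ))
        rw [show (N + ((k + 1 : ℕ) : ℤ) - 1) = N + k by push_cast; ring] at this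
        exact (Int.dvd_iff_dvd_of_dvd_sub this).1 ih
    intro n
    rcases le_total n N with hn | hn
    · simp [hN n hn]
    · have := step (n - N).toNat
      rwa [show N + ((n - N).toNat : ℤ) = n by omega] at this
  choose c hc' using hall
  have hfin : (Function.support c).Finite := by
    refine q.coeff.hasFiniteSupport.subset fun n hn => ?_
    simp only [Function.mem_support] at hn ⊢
    rw [hc' n]; simpa using hn
  refine ⟨AddMonoidAlgebra.ofCoeff (Finsupp.ofSupportFinite c hfin), ?_⟩
  ext n
  rw [two_mul, AddMonoidAlgebra.coeff_add]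
  simp only [Finsupp.add_apply, AddMonoidAlgebra.coeff_ofCoeff, Finsupp.ofSupportFinite_coe]
  rw [hc' n]; ring

end Run7.h254.HT
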