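import Pool.Agent.Run7.h254.HT.Coef

set_option autoImplicit false

open LaurentPolynomial

namespace Run7.h254.HT

theorem csq_two_mul (z : LaurentPolynomial ℤ) : csq (2 * z) = 4 * csq z := by
  rw [← coeff_invert_mul, ← coeff_invert_mul]
  have : invert (2 * z) * (2 * z) = (invert z * z + invert z * z) + (invert z * z + invert z * z) := by
    rw [map_mul, map_ofNat]; ring
  rw [this]
  simp only [AddMonoidAlgebra.coeff_add, Finsupp.add_apply]
  ring

theorem even_csq (ε : LaurentPolynomial ℤ →+* ℤ) (hε : ε (T 1) = 1) (p : LaurentPolynomial ℤ)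
    (h : (2 : ℤ) ∣ ε p) : (2 : ℤ) ∣ csq p := by
  have h1 := csq_parity p
  rw [eps_eq ε hε] at h
  exact (dvd_sub_comm.1 h1 |> fun h2 => by
    have := dvd_sub h h2
    simpa using this)

theorem core (ε : LaurentPolynomial ℤ →+* ℤ) (hε : ε (T 1) = 1)
    (v0 v1 v2 v3 δ e : LaurentPolynomial ℤ) (hδ : δ = 2 - T 1 - T (-1))
    (he : e = v0 - v1 + v2 - v3)
    (h : invert (2 * v0 + δ * e) * (2 * v0 + δ * e) + invert (2 * v1 + δ * e) * (2 * v1 + δ * e)
      + invert (2 * v2 + δ * e) * (2 * v2 + δ * e)
      + invert (2 * v3 + δ * e) * (2 * v3 + δ * e) = 4) : False := by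
  have hm : ε (T (-1)) = 1 := by
    have h1 : (T 1 : LaurentPolynomial ℤ) * T (-1) = 1 := by rw [← T_add]; simp
    have h2 := congrArg ε h1
    rwa [map_mul, hε, map_one, one_mul] at h2
  have hεδ : ε δ = 0 := by
    rw [hδ, map_sub, map_sub, hε, hm, map_ofNat]; norm_num
  have hs : csq (2 * v0 + δ * e) + csq (2 * v1 + δ * e) + csq (2 * v2 + δ * e)
      + csq (2 * v3 + δ * e) = 4 := by
    have h4 := congrArg (fun p : LaurentPolynomial ℤ => p.coeff 0) h
    simp only [AddMonoidAlgebra.coeff_add, Finsupp.add_apply, coeff_invert_mul] at h4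
    rw [h4, show (4 : LaurentPolynomial ℤ) = C 4 from by simp]
    simp [C_apply]
  by_cases h2 : (2 : LaurentPolynomial ℤ) ∣ e
  · obtain ⟨e', rfl⟩ := h2
    have hz : ∀ v : LaurentPolynomial ℤ, csq (2 * v + δ * (2 * e')) = 4 * csq (v + δ * e') := by
      intro v
      rw [← csq_two_mul]; congr 1; ring
    rw [hz, hz, hz, hz] at hs
    have p0 := csq_parity (v0 + δ * e')
    have p1 := csq_parity (v1 + δ * e')
    have p2 := csq_parity (v2 + δ * e')
    have p3 := csq_parity (v3 + δ * e')
    rw [← eps_eq ε hε, map_add, map_mul, hεδ] at p0 p1 p2 p3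
    have hsum := congrArg ε he
    simp only [map_mul, map_ofNat, map_add, map_sub] at hsum
    omega
  · have hne : ∀ v : LaurentPolynomial ℤ, 2 ≤ csq (2 * v + δ * e) := by
      intro v
      have hev : (2 : ℤ) ∣ csq (2 * v + δ * e) := by
        apply even_csq ε hε
        rw [map_add, map_mul, map_mul, hεδ, map_ofNat]
        simp
      have hpos : csq (2 * v + δ * e) ≠ 0 := by
        intro h0
        have h1 := eq_zero_of_csq _ h0
        apply h2
        apply two_dvd_of_mul
        apply two_dvd_of_mul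
        refine ⟨T 1 * v, ?_⟩
        have hT : (T 1 : LaurentPolynomial ℤ) * T (-1) = 1 := by rw [← T_add]; simp
        subst hδ
        linear_combination (-(T 1)) * h1 - e * hT
      have := csq_nonneg (2 * v + δ * e)
      omega
    have := hne v0
    have := hne v1
    have := hne v2
    have := hne v3
    omega

end Run7.h254.HT
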