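import Pool.Agent.Run7.h254.HT.Mat
import Pool.Agent.Run7.h254.HT.NonIso

set_option autoImplicit false

open LaurentPolynomial
open scoped Matrix

namespace Run7.h254.HT

section generic
variable {R : Type*} [CommRing R]

/-- The form of Hambleton and Teichner, in a basis in which it is the identity at `t = 1`. -/
def LL (t u : R) : Matrix (Fin 4) (Fin 4) R := !![
    u^2 - 5*u + 9 - 5*t + t^2, -u^2 + 4*u - 6 + 4*t - t^2,
      u^2 - 5*u + 8 - 5*t + t^2, -u^2 + 4*u - 6 + 4*t - t^2;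
    -u^2 + 4*u - 6 + 4*t - t^2, u^2 - 3*u + 5 - 3*t + t^2,
      -u^2 + 4*u - 6 + 4*t - t^2, u^2 - 3*u + 4 - 3*t + t^2;
    u^2 - 5*u + 8 - 5*t + t^2, -u^2 + 4*u - 6 + 4*t - t^2,
      u^2 - 5*u + 9 - 5*t + t^2, -u^2 + 4*u - 6 + 4*t - t^2;
    -u^2 + 4*u - 6 + 4*t - t^2, u^2 - 3*u + 4 - 3*t + t^2,
      -u^2 + 4*u - 6 + 4*t - t^2, u^2 - 3*u + 5 - 3*t + t^2]

/-- Its inverse. -/
def LI (t u : R) : Matrix (Fin 4) (Fin 4) R := !![
    u^2 - 3*u + 5 - 3*t + t^2, u^2 - 4*u + 6 - 4*t + t^2,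
      u^2 - 3*u + 4 - 3*t + t^2, u^2 - 4*u + 6 - 4*t + t^2;
    u^2 - 4*u + 6 - 4*t + t^2, u^2 - 5*u + 9 - 5*t + t^2,
      u^2 - 4*u + 6 - 4*t + t^2, u^2 - 5*u + 8 - 5*t + t^2;
    u^2 - 3*u + 4 - 3*t + t^2, u^2 - 4*u + 6 - 4*t + t^2,
      u^2 - 3*u + 5 - 3*t + t^2, u^2 - 4*u + 6 - 4*t + t^2;
    u^2 - 4*u + 6 - 4*t + t^2, u^2 - 5*u + 8 - 5*t + t^2,
      u^2 - 4*u + 6 - 4*t + t^2, u^2 - 5*u + 9 - 5*t + t^2]

/-- The index equivalence. -/
def fe : Fin 4 ⊕ Fin 2 × Fin 1 ≃ Fin 6 where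
  toFun := Sum.elim ![0, 1, 2, 3] (fun p => ![4, 5] p.1)
  invFun := ![Sum.inl 0, Sum.inl 1, Sum.inl 2, Sum.inl 3, Sum.inr (0, 0), Sum.inr (1, 0)]
  left_inv := by decide
  right_inv := by decide

theorem fe_inl (i : Fin 4) : fe (Sum.inl i) = ![0, 1, 2, 3] i := rfl

theorem fe_inr (p : Fin 2 × Fin 1) : fe (Sum.inr p) = ![4, 5] p.1 := rfl

theorem MM_eq (t u : R) : Matrix.fromBlocks (LL t u) 0 0
    (Matrix.blockDiagonal (fun _ : Fin 1 => !![0, t - 1; u - 1, 0]))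
      = (MM t u).submatrix fe fe := by
  ext (i | ⟨i, j⟩) (k | ⟨k, l⟩)
  · rw [Matrix.fromBlocks_apply₁₁, Matrix.submatrix_apply, fe_inl, fe_inl]
    fin_cases i <;> fin_cases k <;> simp [MM, LL]
  · rw [Matrix.fromBlocks_apply₁₂, Matrix.submatrix_apply, fe_inl, fe_inr]
    fin_cases i <;> fin_cases k <;> simp [MM]
  · rw [Matrix.fromBlocks_apply₂₁, Matrix.submatrix_apply, fe_inl, fe_inr]
    fin_cases i <;> fin_cases k <;> simp [MM]
  · rw [Matrix.fromBlocks_apply₂₂, Matrix.submatrix_apply, fe_inr, fe_inr]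
    obtain rfl : j = l := Subsingleton.elim _ _
    fin_cases i <;> fin_cases k <;> simp [MM, Matrix.blockDiagonal_apply] <;> ring

theorem NN_eq (t u : R) : Matrix.fromBlocks (1 : Matrix (Fin 4) (Fin 4) R) 0 0
    (Matrix.blockDiagonal (fun _ : Fin 1 => !![0, t - 1; u - 1, 0]))
      = (NN t u).submatrix fe fe := by
  ext (i | ⟨i, j⟩) (k | ⟨k, l⟩)
  · rw [Matrix.fromBlocks_apply₁₁, Matrix.submatrix_apply, fe_inl, fe_inl]
    fin_cases i <;> fin_cases k <;> simp [NN]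
  · rw [Matrix.fromBlocks_apply₁₂, Matrix.submatrix_apply, fe_inl, fe_inr]
    fin_cases i <;> fin_cases k <;> simp [NN]
  · rw [Matrix.fromBlocks_apply₂₁, Matrix.submatrix_apply, fe_inl, fe_inr]
    fin_cases i <;> fin_cases k <;> simp [NN]
  · rw [Matrix.fromBlocks_apply₂₂, Matrix.submatrix_apply, fe_inr, fe_inr]
    obtain rfl : j = l := Subsingleton.elim _ _
    fin_cases i <;> fin_cases k <;> simp [NN, Matrix.blockDiagonal_apply] <;> ring

theorem LL_mul_LI (t u : R) (h : t * u = 1) : LL t u * LI t u = 1 := by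
  ext i j
  fin_cases i <;> fin_cases j <;>
    simp only [LL, LI, Matrix.mul_apply, Fin.sum_univ_four, Matrix.of_apply, Matrix.cons_val,
      Fin.zero_eta, Fin.mk_one, Fin.reduceFinMk, Matrix.one_apply_eq, ne_eq, Fin.reduceEq,
      not_false_eq_true, Matrix.one_apply_ne]
  · linear_combination (-4) * h
  · linear_combination (0) * h
  · linear_combination (-4) * h
  · linear_combination (0) * h
  · linear_combination (0) * h
  · linear_combination (-4) * h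
  · linear_combination (0) * h
  · linear_combination (-4) * h
  · linear_combination (-4) * h
  · linear_combination (0) * h
  · linear_combination (-4) * h
  · linear_combination (0) * h
  · linear_combination (0) * h
  · linear_combination (-4) * h
  · linear_combination (0) * h
  · linear_combination (-4) * h

theorem LL_map (σ : R →+* R) (t u : R) (h1 : σ t = u) (h2 : σ u = t) :
    ((LL t u).map σ)ᵀ = LL t u := by
  have e2 : σ 2 = 2 := map_ofNat σ 2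
  have e3 : σ 3 = 3 := map_ofNat σ 3
  have e4 : σ 4 = 4 := map_ofNat σ 4
  have e5 : σ 5 = 5 := map_ofNat σ 5
  have e6 : σ 6 = 6 := map_ofNat σ 6
  have e8 : σ 8 = 8 := map_ofNat σ 8
  have e9 : σ 9 = 9 := map_ofNat σ 9
  have e11 : σ 11 = 11 := map_ofNat σ 11
  ext i j
  fin_cases i <;> fin_cases j <;> simp [LL, h1, h2, e2, e3, e4, e5, e6, e8, e9, e11] <;> ring

theorem PP_map (σ : R →+* R) (t u : R) (h1 : σ t = u) (h2 : σ u = t) :
    (PP t u).map σ = PP u t := by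
  have e2 : σ 2 = 2 := map_ofNat σ 2
  have e3 : σ 3 = 3 := map_ofNat σ 3
  have e4 : σ 4 = 4 := map_ofNat σ 4
  have e5 : σ 5 = 5 := map_ofNat σ 5
  have e6 : σ 6 = 6 := map_ofNat σ 6
  have e8 : σ 8 = 8 := map_ofNat σ 8
  have e9 : σ 9 = 9 := map_ofNat σ 9
  have e11 : σ 11 = 11 := map_ofNat σ 11
  ext i j
  fin_cases i <;> fin_cases j <;> simp [PP, h1, h2, e2, e3, e4, e5, e6, e8, e9, e11]

theorem LL_eps (ε : R →+* ℤ) (t u : R) (h1 : ε t = 1) (h2 : ε u = 1) :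
    (LL t u).map ε = 1 := by
  have e2 : ε 2 = 2 := map_ofNat ε 2
  have e3 : ε 3 = 3 := map_ofNat ε 3
  have e4 : ε 4 = 4 := map_ofNat ε 4
  have e5 : ε 5 = 5 := map_ofNat ε 5
  have e6 : ε 6 = 6 := map_ofNat ε 6
  have e8 : ε 8 = 8 := map_ofNat ε 8
  have e9 : ε 9 = 9 := map_ofNat ε 9
  have e11 : ε 11 = 11 := map_ofNat ε 11
  ext i j
  fin_cases i <;> fin_cases j <;> simp [LL, h1, h2, e2, e3, e4, e5, e6, e8, e9, e11]

/-- The value of the form on a vector, in orthogonal coordinates. -/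
theorem LL_value (t u v0 v1 v2 v3 w0 w1 w2 w3 : R) (h : t * u = 1)
    (h1 : ∑ j, (∑ i, ![w0, w1, w2, w3] i * LL t u i j) * ![v0, v1, v2, v3] j = 1) :
    (2 * w0 + (2 - t - u) * (w0 - w1 + w2 - w3)) * (2 * v0 + (2 - t - u) * (v0 - v1 + v2 - v3))
      + (2 * w1 + (2 - t - u) * (w0 - w1 + w2 - w3)) * (2 * v1 + (2 - t - u) * (v0 - v1 + v2 - v3))
      + (2 * w2 + (2 - t - u) * (w0 - w1 + w2 - w3)) * (2 * v2 + (2 - t - u) * (v0 - v1 + v2 - v3))
      + (2 * w3 + (2 - t - u) * (w0 - w1 + w2 - w3)) * (2 * v3 + (2 - t - u) * (v0 - v1 + v2 - v3))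
      = 4 := by
  simp only [Fin.sum_univ_four, LL, Matrix.of_apply, Matrix.cons_val] at h1
  linear_combination 4 * h1 + 8 * ((w0 - w1 + w2 - w3) * (v0 - v1 + v2 - v3)) * h

end generic

end Run7.h254.HT
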