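import Mathlib

set_option autoImplicit false
set_option maxHeartbeats 4000000

open scoped Matrix

namespace Run7.h254.HT

variable {R : Type*} [CommRing R]

/-- The form of Hambleton and Teichner plus a scaled hyperbolic plane. -/
def MM (t u : R) : Matrix (Fin 6) (Fin 6) R := !![u^2 - 5*u + 9 - 5*t + t^2, -u^2 + 4*u - 6 + 4*t - t^2, u^2 - 5*u + 8 - 5*t + t^2, -u^2 + 4*u - 6 + 4*t - t^2, 0, 0;
    -u^2 + 4*u - 6 + 4*t - t^2, u^2 - 3*u + 5 - 3*t + t^2, -u^2 + 4*u - 6 + 4*t - t^2, u^2 - 3*u + 4 - 3*t + t^2, 0, 0;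
    u^2 - 5*u + 8 - 5*t + t^2, -u^2 + 4*u - 6 + 4*t - t^2, u^2 - 5*u + 9 - 5*t + t^2, -u^2 + 4*u - 6 + 4*t - t^2, 0, 0;
    -u^2 + 4*u - 6 + 4*t - t^2, u^2 - 3*u + 4 - 3*t + t^2, -u^2 + 4*u - 6 + 4*t - t^2, u^2 - 3*u + 5 - 3*t + t^2, 0, 0;
    0, 0, 0, 0, 0, -1 + t;
    0, 0, 0, 0, u - 1, 0]

def PP (t u : R) : Matrix (Fin 6) (Fin 6) R := !![1, 0, 0, 0, -1 + 3*t - 2*t^2, t^2 - t^3;
    0, 1, 0, 0, -3 + 5*t - 2*t^2, -1 + 2*t^2 - t^3;
    0, 0, 1, 0, -1 + 3*t - 2*t^2, t^2 - t^3;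
    0, 0, 0, 1, -3 + 5*t - 2*t^2, -1 + 2*t^2 - t^3;
    1, -1, 1, -1, 4, 2 + t;
    -u + 3 - t, -2 + t, -u + 3 - t, -2 + t, -2*u + 11 - 4*t, -u + 5 + t - t^2]

def PPi (t u : R) : Matrix (Fin 6) (Fin 6) R := !![u^2 - 5*u + 9 - 5*t + t^2, -u^2 + 4*u - 6 + 4*t - t^2, u^2 - 5*u + 8 - 5*t + t^2, -u^2 + 4*u - 6 + 4*t - t^2, -u^2 + 4*u - 4 + t, -1 + t;
    -u^2 + 4*u - 6 + 4*t - t^2, u^2 - 3*u + 5 - 3*t + t^2, -u^2 + 4*u - 6 + 4*t - t^2, u^2 - 3*u + 4 - 3*t + t^2, u^2 - 3*u + 2, 1 - t;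
    u^2 - 5*u + 8 - 5*t + t^2, -u^2 + 4*u - 6 + 4*t - t^2, u^2 - 5*u + 9 - 5*t + t^2, -u^2 + 4*u - 6 + 4*t - t^2, -u^2 + 4*u - 4 + t, -1 + t;
    -u^2 + 4*u - 6 + 4*t - t^2, u^2 - 3*u + 4 - 3*t + t^2, -u^2 + 4*u - 6 + 4*t - t^2, u^2 - 3*u + 5 - 3*t + t^2, u^2 - 3*u + 2, 1 - t;
    u^2 - 2*u - 4 + 6*t - 2*t^2, -u^2 + u + 3 - 4*t + 2*t^2, u^2 - 2*u - 4 + 6*t - 2*t^2, -u^2 + u + 3 - 4*t + 2*t^2, -u^2 + u + 5 - t, -1 - 2*t;
    -4*u^2 + 15*u - 14 + 4*t, 4*u^2 - 11*u + 10 - 4*t, -4*u^2 + 15*u - 14 + 4*t, 4*u^2 - 11*u + 10 - 4*t, 4*u^2 - 11*u + 2, 4]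

def NN (t u : R) : Matrix (Fin 6) (Fin 6) R := !![1, 0, 0, 0, 0, 0;
    0, 1, 0, 0, 0, 0;
    0, 0, 1, 0, 0, 0;
    0, 0, 0, 1, 0, 0;
    0, 0, 0, 0, 0, -1 + t;
    0, 0, 0, 0, u - 1, 0]

def MP (t u : R) : Matrix (Fin 6) (Fin 6) R := !![u^2 - 5*u + 9 - 5*t + t^2, -u^2 + 4*u - 6 + 4*t - t^2, u^2 - 5*u + 8 - 5*t + t^2, -u^2 + 4*u - 6 + 4*t - t^2, 4*u^2 - 18*u + 29 - 19*t + 4*t^2, 2*u^2 - 8*u + 10 - 2*t - 3*t^2 + t^3;
    -u^2 + 4*u - 6 + 4*t - t^2, u^2 - 3*u + 5 - 3*t + t^2, -u^2 + 4*u - 6 + 4*t - t^2, u^2 - 3*u + 4 - 3*t + t^2, -4*u^2 + 14*u - 21 + 15*t - 4*t^2, -2*u^2 + 6*u - 7 + 2*t + 2*t^2 - t^3;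
    u^2 - 5*u + 8 - 5*t + t^2, -u^2 + 4*u - 6 + 4*t - t^2, u^2 - 5*u + 9 - 5*t + t^2, -u^2 + 4*u - 6 + 4*t - t^2, 4*u^2 - 18*u + 29 - 19*t + 4*t^2, 2*u^2 - 8*u + 10 - 2*t - 3*t^2 + t^3;
    -u^2 + 4*u - 6 + 4*t - t^2, u^2 - 3*u + 4 - 3*t + t^2, -u^2 + 4*u - 6 + 4*t - t^2, u^2 - 3*u + 5 - 3*t + t^2, -4*u^2 + 14*u - 21 + 15*t - 4*t^2, -2*u^2 + 6*u - 7 + 2*t + 2*t^2 - t^3;
    u - 4 + 4*t - t^2, 2 - 3*t + t^2, u - 4 + 4*t - t^2, 2 - 3*t + t^2, 2*u - 13 + 15*t - 4*t^2, u - 6 + 4*t + 2*t^2 - t^3;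
    u - 1, -u + 1, u - 1, -u + 1, 4*u - 4, 2*u - 1 - t]

theorem PP_mul_PPi (t u : R) (h : t * u = 1) : PP t u * PPi t u = 1 := by
  ext i j
  fin_cases i <;> fin_cases j <;>
    simp only [PP, PPi, Matrix.mul_apply, Fin.sum_univ_six, Matrix.of_apply, Matrix.cons_val, Fin.zero_eta, Fin.mk_one, Fin.reduceFinMk,
      Matrix.one_apply_eq, ne_eq, Fin.reduceEq, not_false_eq_true, Matrix.one_apply_ne, Matrix.transpose_apply]
  · linear_combination (-12 + 3*u + 23*t - 6*t*u - 15*t^2 + 4*t^2*u) * h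
  · linear_combination (9 - 3*u - 17*t + 6*t*u + 11*t^2 - 4*t^2*u) * h
  · linear_combination (-12 + 3*u + 23*t - 6*t*u - 15*t^2 + 4*t^2*u) * h
  · linear_combination (9 - 3*u - 17*t + 6*t*u + 11*t^2 - 4*t^2*u) * h
  · linear_combination (9 - 3*u - 17*t + 6*t*u + 11*t^2 - 4*t^2*u) * h
  · linear_combination (0) * h
  · linear_combination (-20 + 5*u + 38*t - 10*t*u - 15*t^2 + 4*t^2*u) * h
  · linear_combination (15 - 5*u - 28*t + 10*t*u + 11*t^2 - 4*t^2*u) * h
  · linear_combination (-20 + 5*u + 38*t - 10*t*u - 15*t^2 + 4*t^2*u) * h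
  · linear_combination (15 - 5*u - 28*t + 10*t*u + 11*t^2 - 4*t^2*u) * h
  · linear_combination (15 - 5*u - 28*t + 10*t*u + 11*t^2 - 4*t^2*u) * h
  · linear_combination (0) * h
  · linear_combination (-12 + 3*u + 23*t - 6*t*u - 15*t^2 + 4*t^2*u) * h
  · linear_combination (9 - 3*u - 17*t + 6*t*u + 11*t^2 - 4*t^2*u) * h
  · linear_combination (-12 + 3*u + 23*t - 6*t*u - 15*t^2 + 4*t^2*u) * h
  · linear_combination (9 - 3*u - 17*t + 6*t*u + 11*t^2 - 4*t^2*u) * h
  · linear_combination (9 - 3*u - 17*t + 6*t*u + 11*t^2 - 4*t^2*u) * h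
  · linear_combination (0) * h
  · linear_combination (-20 + 5*u + 38*t - 10*t*u - 15*t^2 + 4*t^2*u) * h
  · linear_combination (15 - 5*u - 28*t + 10*t*u + 11*t^2 - 4*t^2*u) * h
  · linear_combination (-20 + 5*u + 38*t - 10*t*u - 15*t^2 + 4*t^2*u) * h
  · linear_combination (15 - 5*u - 28*t + 10*t*u + 11*t^2 - 4*t^2*u) * h
  · linear_combination (15 - 5*u - 28*t + 10*t*u + 11*t^2 - 4*t^2*u) * h
  · linear_combination (0) * h
  · linear_combination (15 - 4*u) * h
  · linear_combination (-11 + 4*u) * h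
  · linear_combination (15 - 4*u) * h
  · linear_combination (-11 + 4*u) * h
  · linear_combination (-11 + 4*u) * h
  · linear_combination (0) * h
  · linear_combination (39 - 12*u - 13*t + 4*t*u) * h
  · linear_combination (-29 + 12*u + 9*t - 4*t*u) * h
  · linear_combination (39 - 12*u - 13*t + 4*t*u) * h
  · linear_combination (-29 + 12*u + 9*t - 4*t*u) * h
  · linear_combination (-33 + 12*u + 11*t - 4*t*u) * h
  · linear_combination (2) * h

theorem PPi_mul_PP (t u : R) (h : t * u = 1) : PPi t u * PP t u = 1 := by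
  ext i j
  fin_cases i <;> fin_cases j <;>
    simp only [PP, PPi, Matrix.mul_apply, Fin.sum_univ_six, Matrix.of_apply, Matrix.cons_val, Fin.zero_eta, Fin.mk_one, Fin.reduceFinMk,
      Matrix.one_apply_eq, ne_eq, Fin.reduceEq, not_false_eq_true, Matrix.one_apply_ne, Matrix.transpose_apply]
  · linear_combination (-1) * h
  · linear_combination (0) * h
  · linear_combination (-1) * h
  · linear_combination (0) * h
  · linear_combination (8 - 4*u + 4*t) * h
  · linear_combination (1 - u + 6*t - 2*t*u + 2*t^2) * h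
  · linear_combination (1) * h
  · linear_combination (0) * h
  · linear_combination (1) * h
  · linear_combination (0) * h
  · linear_combination (-4 + 4*u - 4*t) * h
  · linear_combination (u - 4*t + 2*t*u - 2*t^2) * h
  · linear_combination (-1) * h
  · linear_combination (0) * h
  · linear_combination (-1) * h
  · linear_combination (0) * h
  · linear_combination (8 - 4*u + 4*t) * h
  · linear_combination (1 - u + 6*t - 2*t*u + 2*t^2) * h
  · linear_combination (1) * h
  · linear_combination (0) * h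
  · linear_combination (1) * h
  · linear_combination (0) * h
  · linear_combination (-4 + 4*u - 4*t) * h
  · linear_combination (u - 4*t + 2*t*u - 2*t^2) * h
  · linear_combination (2) * h
  · linear_combination (0) * h
  · linear_combination (2) * h
  · linear_combination (0) * h
  · linear_combination (2 - 4*u + 4*t) * h
  · linear_combination (1 - u - 2*t*u + 2*t^2) * h
  · linear_combination (0) * h
  · linear_combination (0) * h
  · linear_combination (0) * h
  · linear_combination (0) * h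
  · linear_combination (-20 + 16*u - 16*t) * h
  · linear_combination (-3 + 4*u - 14*t + 8*t*u - 8*t^2) * h

theorem MM_mul_PP (t u : R) (h : t * u = 1) : MM t u * PP t u = MP t u := by
  ext i j
  fin_cases i <;> fin_cases j <;>
    simp only [PP, MM, MP, Matrix.mul_apply, Fin.sum_univ_six, Matrix.of_apply, Matrix.cons_val, Fin.zero_eta, Fin.mk_one, Fin.reduceFinMk,
      Matrix.one_apply_eq, ne_eq, Fin.reduceEq, not_false_eq_true, Matrix.one_apply_ne, Matrix.transpose_apply]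
  · linear_combination (0) * h
  · linear_combination (0) * h
  · linear_combination (0) * h
  · linear_combination (0) * h
  · linear_combination (10 - 4*u + 4*t) * h
  · linear_combination (-2 + 6*t - 2*t*u + 2*t^2) * h
  · linear_combination (0) * h
  · linear_combination (0) * h
  · linear_combination (0) * h
  · linear_combination (0) * h
  · linear_combination (-6 + 4*u - 4*t) * h
  · linear_combination (2 - 4*t + 2*t*u - 2*t^2) * h
  · linear_combination (0) * h
  · linear_combination (0) * h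
  · linear_combination (0) * h
  · linear_combination (0) * h
  · linear_combination (10 - 4*u + 4*t) * h
  · linear_combination (-2 + 6*t - 2*t*u + 2*t^2) * h
  · linear_combination (0) * h
  · linear_combination (0) * h
  · linear_combination (0) * h
  · linear_combination (0) * h
  · linear_combination (-6 + 4*u - 4*t) * h
  · linear_combination (2 - 4*t + 2*t*u - 2*t^2) * h
  · linear_combination (-1) * h
  · linear_combination (0) * h
  · linear_combination (-1) * h
  · linear_combination (0) * h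
  · linear_combination (-2) * h
  · linear_combination (-1) * h
  · linear_combination (0) * h
  · linear_combination (0) * h
  · linear_combination (0) * h
  · linear_combination (0) * h
  · linear_combination (0) * h
  · linear_combination (1) * h

theorem PPs_mul_MP (t u : R) (h : t * u = 1) : (PP u t)ᵀ * MP t u = NN t u := by
  ext i j
  fin_cases i <;> fin_cases j <;>
    simp only [PP, MP, NN, Matrix.mul_apply, Fin.sum_univ_six, Matrix.of_apply, Matrix.cons_val, Fin.zero_eta, Fin.mk_one, Fin.reduceFinMk,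
      Matrix.one_apply_eq, ne_eq, Fin.reduceEq, not_false_eq_true, Matrix.one_apply_ne, Matrix.transpose_apply]
  · linear_combination (-1) * h
  · linear_combination (1) * h
  · linear_combination (-1) * h
  · linear_combination (1) * h
  · linear_combination (-4) * h
  · linear_combination (-1) * h
  · linear_combination (0) * h
  · linear_combination (0) * h
  · linear_combination (0) * h
  · linear_combination (0) * h
  · linear_combination (0) * h
  · linear_combination (-1) * h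
  · linear_combination (-1) * h
  · linear_combination (1) * h
  · linear_combination (-1) * h
  · linear_combination (1) * h
  · linear_combination (-4) * h
  · linear_combination (-1) * h
  · linear_combination (0) * h
  · linear_combination (0) * h
  · linear_combination (0) * h
  · linear_combination (0) * h
  · linear_combination (0) * h
  · linear_combination (-1) * h
  · linear_combination (8 + 4*u - 4*t) * h
  · linear_combination (-4 - 4*u + 4*t) * h
  · linear_combination (8 + 4*u - 4*t) * h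
  · linear_combination (-4 - 4*u + 4*t) * h
  · linear_combination (28 + 16*u - 16*t) * h
  · linear_combination (12 + 2*t + 4*t*u - 4*t^2) * h
  · linear_combination (1 + 6*u + 2*u^2 - t - 2*t*u) * h
  · linear_combination (-4*u - 2*u^2 + t + 2*t*u) * h
  · linear_combination (1 + 6*u + 2*u^2 - t - 2*t*u) * h
  · linear_combination (-4*u - 2*u^2 + t + 2*t*u) * h
  · linear_combination (3 + 22*u + 8*u^2 - 4*t - 8*t*u) * h
  · linear_combination (3 + 7*u + 2*t*u + 2*t*u^2 - t^2 - 2*t^2*u) * h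

end Run7.h254.HT
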